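import Pool.Agent.H83.V.T2
import Pool.Agent.H75.AG.S6

/-!
Row Y6 of the board lvv_modules (Theorem V): the parameters of the switching lemma
(after row X8 of lfu_modules by helper77, `Pool/Agent/H77/LF/X8.lean`).
-/

set_option autoImplicit false

open MeasureTheory ProbabilityTheory Filter Topology Finset
open scoped Nat ENNReal

namespace Pool.Agent.H10.V

open Pool.Agent.H24.T2 (Pset)
open Pool.Agent.H67.AG (avgP ul Inv Rt Av SA kap JJ TT InvZ nxt triv tow XN PN TN XX PX TX prX Fac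
  T_UL T_ME)
open Pool.Agent.H28.LF (Wd La Cd dm ds)
open Pool.Agent.H83.V
open Pool.Agent.H75.AG (ul_le_c ul_abs avgP_abs avgP_affine int_abs_C int_abs_le Av_meas Av_abs
  integrable_bdd mean_mv)

section reference

variable (d : Sv)

theorem FF_meas (p : ℕ) (j : Fin d.m → Fin d.n) : Measurable (d.FF p j) := by
  classical
  unfold Sv.FF
  refine Measurable.ite ?_ measurable_const measurable_const
  have h : Measurable fun ω : d.Ω' =>
      (fun i : Fin d.m => d.y (j i) (d.T'^[p * ((i : ℕ) + 1)] ω)) :=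
    measurable_pi_lambda _ fun i => (d.ym (j i)).comp (d.T'.measurable.iterate _)
  exact h (MeasurableSet.of_discrete (s := d.Bad p))

theorem FF_abs (p : ℕ) (j : Fin d.m → Fin d.n) (ω : d.Ω') : |d.FF p j ω| ≤ 1 := by
  unfold Sv.FF
  split_ifs <;> simp

theorem s_nn (p : ℕ) : 0 ≤ d.s p := by
  rcases d.sv p with h | h <;> simp [h]

theorem s_le (p : ℕ) : d.s p ≤ 1 := by
  rcases d.sv p with h | h <;> simp [h]

/-- difference of two ergodic averages of the products -/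
noncomputable def hF (L L'' p : ℕ) (j : Fin d.m → Fin d.n) (ω : d.Ω') : ℝ :=
  Av d.T' 1 L (d.FF p j) ω - Av d.T' 1 L'' (d.FF p j) ω

theorem hF_meas (L L'' p : ℕ) (j : Fin d.m → Fin d.n) :
    Measurable (hF d L L'' p j) :=
  (Av_meas _ _ _ _ (FF_meas d p j)).sub (Av_meas _ _ _ _ (FF_meas d p j))

theorem hF_abs (L L'' p : ℕ) (j : Fin d.m → Fin d.n) (ω : d.Ω') :
    |hF d L L'' p j ω| ≤ 2 := by
  have h1 := Av_abs d.T' 1 L _ (FF_abs d p j) ω
  have h2 := Av_abs d.T' 1 L'' _ (FF_abs d p j) ω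
  unfold hF
  calc |Av d.T' 1 L (d.FF p j) ω - Av d.T' 1 L'' (d.FF p j) ω| ≤
        |Av d.T' 1 L (d.FF p j) ω| + |Av d.T' 1 L'' (d.FF p j) ω| := abs_sub _ _
    _ ≤ 2 := by linarith

theorem hF_sq_abs (L L'' p : ℕ) (j : Fin d.m → Fin d.n) (ω : d.Ω') :
    |hF d L L'' p j ω ^ 2| ≤ 4 := by
  rw [abs_pow]
  have := hF_abs d L L'' p j ω
  nlinarith [abs_nonneg (hF d L L'' p j ω)]

theorem s_mul_abs (p : ℕ) (x C : ℝ) (hx : |x| ≤ C) : |d.s p * x| ≤ C := by
  rw [abs_mul, abs_of_nonneg (s_nn d p)]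
  have h1 := s_le d p
  have h2 := s_nn d p
  have h3 := abs_nonneg x
  nlinarith

end reference

section extension

variable {d : Sv} (e : SvE d)

theorem comp_int (h : d.Ω' → ℝ) (hm : Measurable h) :
    ∫ ω, |h (e.g ω)| ∂e.P = ∫ ω, |h ω| ∂d.P' := by
  have hm' : Measurable fun ω => |h ω| := hm.abs
  rw [← e.fac.1.map_eq, integral_map e.fac.1.measurable.aemeasurable hm'.aestronglyMeasurable]

theorem comp_integrable (h : d.Ω' → ℝ) (hi : Integrable h d.P') :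
    Integrable (fun ω => h (e.g ω)) e.P :=
  e.fac.1.integrable_comp_of_integrable hi

theorem set_comp_le (h : d.Ω' → ℝ) (hm : Measurable h) (hi : Integrable h d.P')
    (A : Set e.Ω) : ∫ ω in A, |h (e.g ω)| ∂e.P ≤ ∫ ω, |h ω| ∂d.P' := by
  rw [← comp_int e h hm]
  exact setIntegral_le_integral (comp_integrable e h hi).abs
    (Eventually.of_forall fun ω => abs_nonneg _)

theorem hF_set (L L'' p : ℕ) (j : Fin d.m → Fin d.n) (δ : ℝ) (hδ : 0 < δ)
    (A : Set e.Ω) :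
    d.s p * ∫ ω in A, |hF d L L'' p j (e.g ω)| ∂e.P ≤
      δ / 2 + 1 / (2 * δ) * (d.s p * ∫ ω, hF d L L'' p j ω ^ 2 ∂d.P') := by
  have hi : Integrable (hF d L L'' p j) d.P' :=
    integrable_bdd (hF_meas d L L'' p j) 2 (hF_abs d L L'' p j)
  have hi2 : Integrable (fun ω => hF d L L'' p j ω ^ 2) d.P' :=
    integrable_bdd ((hF_meas d L L'' p j).pow_const 2) 4 (hF_sq_abs d L L'' p j)
  have h1 := (set_comp_le e _ (hF_meas d L L'' p j) hi A).trans (int_abs_le _ δ hδ hi hi2)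
  have h2 := mul_le_mul_of_nonneg_left h1 (s_nn d p)
  refine h2.trans ?_
  have h3 : d.s p * (δ / 2 + (∫ ω, hF d L L'' p j ω ^ 2 ∂d.P') / (2 * δ)) =
      d.s p * (δ / 2) + 1 / (2 * δ) * (d.s p * ∫ ω, hF d L L'' p j ω ^ 2 ∂d.P') := by ring
  rw [h3]
  have h4 : d.s p * (δ / 2) ≤ δ / 2 := by
    have := s_le d p
    nlinarith
  linarith

theorem E2_le (hul : T_UL) (L : ℕ) (δ : ℝ) (hδ : 0 < δ)
    (hL : ∀ L'' : ℕ, L ≤ L'' → ∀ j : Fin d.m → Fin d.n,
      ul d.U (fun m => avgP 2 m fun p => d.s p *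
        ∫ ω, (Av d.T' 1 L (d.FF p j) ω - Av d.T' 1 L'' (d.FF p j) ω) ^ 2 ∂d.P') ≤ δ ^ 2)
    (A : Set e.Ω) : e.E2 L A ≤ ((d.n : ℝ) ^ d.m) * δ := by
  have hb : ∀ L'' p (j : Fin d.m → Fin d.n),
      |d.s p * ∫ ω in A, |hF d L L'' p j (e.g ω)| ∂e.P| ≤ 2 := fun L'' p j =>
    s_mul_abs d p _ _
      (int_abs_C e.P _ 2 (fun ω => by rw [abs_abs]; exact hF_abs d L L'' p j _) A (by norm_num))
  have hb2 : ∀ L'' p (j : Fin d.m → Fin d.n),
      |d.s p * ∫ ω, hF d L L'' p j ω ^ 2 ∂d.P'| ≤ 4 := by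
    intro L'' p j
    have h := int_abs_C d.P' _ 4 (fun ω => hF_sq_abs d L L'' p j ω) Set.univ (by norm_num)
    rw [setIntegral_univ] at h
    exact s_mul_abs d p _ _ h
  have hj : ∀ j : Fin d.m → Fin d.n, ul (hyperfilter ℕ) (fun L'' => ul d.U fun m =>
      avgP 2 m fun p => d.s p * ∫ ω in A, |hF d L L'' p j (e.g ω)| ∂e.P) ≤ δ := by
    intro j
    refine ul_le_c hul _ _ 2 δ (fun L'' => ?_) ?_
    · exact ul_abs hul _ _ 2 fun m => avgP_abs _ _ _ 2 (by norm_num) fun p => hb L'' p j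
    · have h1 : ∀ᶠ L'' in atTop, L ≤ L'' := eventually_ge_atTop L
      have h2 : ((hyperfilter ℕ : Ultrafilter ℕ) : Filter ℕ) ≤ atTop := by
        have := hyperfilter_le_cofinite (α := ℕ)
        rwa [Nat.cofinite_eq_atTop] at this
      filter_upwards [h2 h1] with L'' hL''
      obtain ⟨-, hmono, hadd, hmul, hconst⟩ := hul d.U
      have hsq : ∀ m, |avgP 2 m fun p => d.s p * ∫ ω, hF d L L'' p j ω ^ 2 ∂d.P'| ≤ 4 := fun m =>
        avgP_abs _ _ _ 4 (by norm_num) fun p => hb2 L'' p j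
      have hsq' : ∀ m, |1 / (2 * δ) * avgP 2 m fun p =>
          d.s p * ∫ ω, hF d L L'' p j ω ^ 2 ∂d.P'| ≤ 1 / (2 * δ) * 4 := fun m => by
        rw [abs_mul, abs_of_pos (show (0 : ℝ) < 1 / (2 * δ) by positivity)]
        exact mul_le_mul_of_nonneg_left (hsq m) (by positivity)
      have h3 : ul d.U (fun m => avgP 2 m fun p =>
            d.s p * ∫ ω in A, |hF d L L'' p j (e.g ω)| ∂e.P) ≤
          ul d.U (fun m => δ / 2 + 1 / (2 * δ) *
            avgP 2 m fun p => d.s p * ∫ ω, hF d L L'' p j ω ^ 2 ∂d.P') := by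
        refine hmono _ _ ⟨2, fun m => avgP_abs _ _ _ 2 (by norm_num) fun p => hb L'' p j⟩
          ⟨δ / 2 + 1 / (2 * δ) * 4, fun m => ?_⟩ (Eventually.of_forall fun m => ?_)
        · refine (abs_add_le _ _).trans (add_le_add ?_ (hsq' m))
          rw [abs_of_pos (by positivity)]
        · exact avgP_affine _ _ _ _ _ _ (by positivity) fun p => hF_set e L L'' p j δ hδ A
      have h4 : ul d.U (fun m => δ / 2 + 1 / (2 * δ) *
            avgP 2 m fun p => d.s p * ∫ ω, hF d L L'' p j ω ^ 2 ∂d.P') =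
          δ / 2 + 1 / (2 * δ) *
            ul d.U (fun m => avgP 2 m fun p => d.s p * ∫ ω, hF d L L'' p j ω ^ 2 ∂d.P') := by
        rw [hadd (fun _ => δ / 2) _ ⟨|δ / 2|, fun _ => le_refl _⟩ ⟨_, hsq'⟩, hconst,
          hmul _ _ ⟨4, hsq⟩]
      rw [h4] at h3
      refine h3.trans ?_
      have h5 : ul d.U (fun m => avgP 2 m fun p =>
          d.s p * ∫ ω, hF d L L'' p j ω ^ 2 ∂d.P') ≤ δ ^ 2 := hL L'' hL'' j
      calc δ / 2 + 1 / (2 * δ) *
            ul d.U (fun m => avgP 2 m fun p => d.s p * ∫ ω, hF d L L'' p j ω ^ 2 ∂d.P')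
          ≤ δ / 2 + 1 / (2 * δ) * δ ^ 2 :=
            add_le_add (le_refl _) (mul_le_mul_of_nonneg_left h5 (by positivity))
        _ = δ := by field_simp; ring
  calc e.E2 L A ≤ ∑ _j : Fin d.m → Fin d.n, δ := Finset.sum_le_sum fun j _ => hj j
    _ = ((d.n : ℝ) ^ d.m) * δ := by
        rw [Finset.sum_const, card_univ, Fintype.card_fun, Fintype.card_fin, Fintype.card_fin,
          nsmul_eq_mul, Nat.cast_pow]

theorem mv_eq (l : ℕ) : e.mv l = Set.indicator {ω | e.s (e.T^[l] ω) ≠ e.s ω}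
    (fun _ => (1 : ℝ)) := by
  classical
  funext ω
  unfold SvE.mv
  by_cases h : e.s (e.T^[l] ω) = e.s ω
  · rw [if_pos h, Set.indicator_of_notMem]
    exact fun h' => h' h
  · rw [if_neg h, Set.indicator_of_mem]
    exact h

theorem mv_set_meas (l : ℕ) : MeasurableSet {ω | e.s (e.T^[l] ω) ≠ e.s ω} := by
  have h : MeasurableSet {ω | e.s (e.T^[l] ω) = e.s ω} :=
    measurableSet_eq_fun (e.sm.comp (e.T.measurable.iterate _)) e.sm
  exact h.compl

theorem mv_meas (l : ℕ) : Measurable (e.mv l) := by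
  rw [mv_eq]
  exact measurable_const.indicator (mv_set_meas e l)

theorem mv_nn (l : ℕ) (ω : e.Ω) : 0 ≤ e.mv l ω := by
  unfold SvE.mv; split_ifs <;> norm_num

theorem mv_le (l : ℕ) (ω : e.Ω) : e.mv l ω ≤ 1 := by
  unfold SvE.mv; split_ifs <;> norm_num

theorem mv_int (l : ℕ) : Integrable (e.mv l) e.P :=
  integrable_bdd (mv_meas e l) 1 fun ω => by rw [abs_of_nonneg (mv_nn e l ω)]; exact mv_le e l ω

theorem mv_integral (l : ℕ) : ∫ ω, e.mv l ω ∂e.P =
    e.P.real {ω | e.s (e.T^[l] ω) ≠ e.s ω} := by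
  rw [mv_eq, integral_indicator_const _ (mv_set_meas e l), smul_eq_mul, mul_one]

theorem mv_set (l : ℕ) (A : Set e.Ω) (η : ℝ)
    (h : e.P.real {ω | e.s (e.T^[l] ω) ≠ e.s ω} ≤ η) : ∫ ω in A, e.mv l ω ∂e.P ≤ η := by
  refine le_trans ?_ ((mv_integral e l).le.trans h)
  exact setIntegral_le_integral (mv_int e l) (Eventually.of_forall fun ω => mv_nn e l ω)

end extension

/-- Row Y6. -/
theorem pf_Y6 (hul : T_UL) (h1 : T_Y1) : T_Y6 := by
  intro m γ ε hm hγ hε
  have hmr : (0 : ℝ) < m := by exact_mod_cast hm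
  set ps : ℝ := kp γ / (2 * m) with hps
  have hps0 : 0 < ps := by
    have : 0 < kp γ := by unfold kp; positivity
    positivity
  set η : ℝ := min (ε / (4 * m)) (ε * ps / 10) with hη
  have hη0 : 0 < η := lt_min (by positivity) (by positivity)
  refine ⟨η, hη0, ?_⟩
  have hη1 : 2 * m * η ≤ ε / 2 := by
    have h := min_le_left (ε / (4 * m)) (ε * ps / 10)
    rw [← hη] at h
    rw [le_div_iff₀ (by positivity)] at h
    linarith
  have hη2 : 10 / ps * η ≤ ε := by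
    have h := min_le_right (ε / (4 * m)) (ε * ps / 10)
    rw [← hη] at h
    rw [div_mul_eq_mul_div, div_le_iff₀ hps0]
    linarith
  intro d hdm hdγ
  have hnk : (0 : ℝ) < (d.n : ℝ) ^ d.m + 1 := by positivity
  set δ : ℝ := (ε / 8) / ((d.n : ℝ) ^ d.m + 1) with hδ
  have hδ0 : 0 < δ := by positivity
  obtain ⟨L, -, hL0, hL⟩ := h1 d (δ ^ 2) 0 (by positivity)
  have hdm' : (d.m : ℝ) = m := by rw [hdm]
  refine ⟨L, L + 1, hL0, fun e hmv => ⟨?_, ?_⟩⟩
  · have hmv' : ∀ l, l ≤ L + 1 → ∫ ω in (Set.univ : Set e.Ω), e.mv l ω ∂e.P ≤ η :=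
      fun l hl => mv_set e l Set.univ η (hmv l hl)
    have hX1 : 2 * (d.m : ℝ) / (L : ℝ) *
        ∑ l ∈ range L, ∫ ω in (Set.univ : Set e.Ω), e.mv l ω ∂e.P ≤ 2 * (d.m : ℝ) * η :=
      mean_mv L hL0 _ (by positivity) _ _ fun l hl => hmv' l (by
        have := Finset.mem_range.1 hl
        omega)
    have hX2 : e.E2 L Set.univ ≤ ε / 8 := by
      refine (E2_le e hul L δ hδ0 hL _).trans ?_
      rw [hδ, mul_div_assoc', div_le_iff₀ hnk]
      nlinarith
    unfold SvE.EE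
    rw [hdm'] at hX1 ⊢
    linarith
  · have hps' : d.ps = ps := by rw [hps, Sv.ps, hdm', hdγ]
    rw [hps']
    have hnn : 0 ≤ᵐ[e.P] e.P[e.mv 1 | Inv e.T 1] :=
      condExp_nonneg (Eventually.of_forall fun ω => mv_nn e 1 ω)
    have hmar := mul_meas_ge_le_integral_of_nonneg hnn integrable_condExp (ps / 10)
    rw [integral_condExp (MeasurableSpace.invariants_le _), mv_integral] at hmar
    have h8 := hmv 1 (by omega)
    have h9 : e.P.real {ω | ps / 10 < (e.P[e.mv 1 | Inv e.T 1]) ω} ≤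
        e.P.real {ω | ps / 10 ≤ (e.P[e.mv 1 | Inv e.T 1]) ω} :=
      measureReal_mono (by
        intro ω hω
        rw [Set.mem_ofPred_eq] at hω ⊢
        exact hω.le)
    have h10 : ps / 10 * e.P.real {ω | ps / 10 ≤ (e.P[e.mv 1 | Inv e.T 1]) ω} ≤ η :=
      hmar.trans h8
    refine h9.trans ?_
    have h11 : e.P.real {ω | ps / 10 ≤ (e.P[e.mv 1 | Inv e.T 1]) ω} ≤ 10 / ps * η := by
      rw [div_mul_eq_mul_div, le_div_iff₀ hps0]
      linarith
    linarith

end Pool.Agent.H10.V
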